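import Pool.Agent.V8H9.LC.Fin

/-!
# Lang's inequality for almost all algebraic numbers of degree `d`, up to the height to any power less
than `(d + 1) / 2`

For every degree `d ≥ 2`, every `κ < (d + 1) / 2` and every nonincreasing summable `ψ ≥ 0` (for instance
`ψ(q) = 1 / (q (log q)^(1+ε))`, which gives Lang's inequality) almost all real algebraic numbers `ξ` of
degree `d` and height at most `H` satisfy `|ξ - p/q| > c ψ(q) / q` for all `1 ≤ q ≤ H ^ κ`.

Method. The number of the integer polynomials of height at most `H` with `|F(θ)| ≤ η` is at most a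
constant times `H ^ d η`, by Minkowski's second theorem, unless there is an integer vector `w` close to
`w₀ (1, θ, …, θ ^ d)` with `w₀ ≤ c / η`. In the exceptional case `F` is orthogonal to the shortest such
vector `w`, and there are at most `C H ^ d / w₀` such polynomials. The number of the shortest vectors
with `T ≤ w₀ < 2 T` is at most `C H T` times the measure of the set of the points close to a rational
point with denominator about `T`, which is at most `C (T / H ^ d) ^ α` by Siegel's lemma and the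
quantitative nondivergence estimate of Kleinbock and Margulis (as proved in the starting file
`MP_c5a493_nt/UniformBound`).
-/

set_option autoImplicit false

namespace Pool.Agent.Results.MP_c307ca_nt.HalfDegreeRange

open Filter

/-- `ξ` is a real algebraic number of degree `d` and height at most `H`: it is a root of an integer
polynomial of degree `d` which is irreducible over `ℚ` and has coefficients of absolute value at
most `H`. -/
def AlgNum (d H : ℕ) (ξ : ℝ) : Prop :=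
  ∃ P : Polynomial ℤ, P.natDegree = d ∧ (∀ i, |P.coeff i| ≤ (H : ℤ)) ∧
    Irreducible (P.map (Int.castRingHom ℚ)) ∧ Polynomial.aeval ξ P = 0

/-- Lang's function -/
noncomputable def lang (ε : ℝ) (q : ℕ) : ℝ :=
  1 / (((max q 2 : ℕ) : ℝ) * Real.log ((max q 2 : ℕ) : ℝ) ^ (1 + ε))

theorem lang_nonneg (ε : ℝ) (q : ℕ) : 0 ≤ lang ε q := by
  unfold lang
  have h1 := Pool.Agent.Results.MP_c307ca_nt.AlmostAllToHeight.log_pos' q
  positivity

theorem lang_anti (ε : ℝ) (hε : 0 < ε) : Antitone (lang ε) := by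
  intro m n h
  unfold lang
  have h1 := Pool.Agent.Results.MP_c307ca_nt.AlmostAllToHeight.log_pos' m
  have h2 : (0 : ℝ) < ((max m 2 : ℕ) : ℝ) := by
    have : (0 : ℕ) < max m 2 := by omega
    exact_mod_cast this
  have h3 : ((max m 2 : ℕ) : ℝ) ≤ ((max n 2 : ℕ) : ℝ) := by
    have : max m 2 ≤ max n 2 := by omega
    exact_mod_cast this
  apply one_div_le_one_div_of_le (by positivity)
  refine mul_le_mul h3 ?_ (by positivity) (by positivity)
  exact Real.rpow_le_rpow h1.le (Real.log_le_log h2 h3) (by linarith)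

theorem lang_eq (ε : ℝ) (q : ℕ) (hq : 2 ≤ q) :
    (q : ℝ) * Pool.Agent.Results.MP_c307ca_nt.AlmostAllToHeight.w ε q = lang ε q := by
  unfold lang Pool.Agent.Results.MP_c307ca_nt.AlmostAllToHeight.w
  rw [max_eq_left hq]
  have hq0 : (q : ℝ) ≠ 0 := by
    have : q ≠ 0 := by omega
    exact_mod_cast this
  field_simp

theorem lang_summable (ε : ℝ) (hε : 0 < ε) : Summable (lang ε) := by
  have h := Pool.Agent.Results.MP_c307ca_nt.AlmostAllToHeight.w_summable ε hε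
  rw [← summable_nat_add_iff 2] at h ⊢
  refine h.congr fun q => ?_
  exact lang_eq ε (q + 2) (by omega)

theorem lang_div (ε c : ℝ) (q : ℕ) (hq : 2 ≤ q) :
    c / ((q : ℝ) ^ 2 * Real.log q ^ (1 + ε)) = c * (lang ε q / q) := by
  unfold lang
  rw [max_eq_left hq]
  have hq0 : (q : ℝ) ≠ 0 := by
    have : q ≠ 0 := by omega
    exact_mod_cast this
  field_simp

/-- **Lang's inequality for almost all algebraic numbers of degree `d`, up to `H ^ κ`, `κ < (d + 1) / 2`.**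
Let `d ≥ 2` and `κ < (d + 1) / 2`.

(1) For every nonnegative nonincreasing summable `ψ` and every `η > 0` there is `c > 0` such that for
every height bound `H ≥ 1` all but at most `η H^(d+1)` of the real algebraic numbers of degree `d` and
height at most `H` satisfy `|ξ - p/q| > c ψ(q) / q` for all integers `p` and all `1 ≤ q ≤ H^κ`.

(2) For all `ε, η > 0` there is `c > 0` such that for every height bound `H ≥ 1` all but at most
`η H^(d+1)` of the real algebraic numbers of degree `d` and height at most `H` satisfy Lang's inequality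
`|ξ - p/q| > c / (q² (log q)^(1+ε))` for all integers `p` and all `2 ≤ q ≤ H^κ`. -/
theorem result (d : ℕ) (hd : 2 ≤ d) (κ : ℝ) (hκ : κ < ((d : ℝ) + 1) / 2) :
    (∀ ψ : ℕ → ℝ, (∀ q, 0 ≤ ψ q) → Antitone ψ → Summable ψ → ∀ η : ℝ, 0 < η →
      ∃ c : ℝ, 0 < c ∧ ∀ H : ℕ, 1 ≤ H →
        {ξ : ℝ | AlgNum d H ξ ∧ ∃ (p : ℤ) (q : ℕ), 1 ≤ q ∧ (q : ℝ) ≤ (H : ℝ) ^ κ ∧
          |ξ - (p : ℝ) / q| ≤ c * ψ q / q}.Finite ∧
        ({ξ : ℝ | AlgNum d H ξ ∧ ∃ (p : ℤ) (q : ℕ), 1 ≤ q ∧ (q : ℝ) ≤ (H : ℝ) ^ κ ∧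
          |ξ - (p : ℝ) / q| ≤ c * ψ q / q}.ncard : ℝ) ≤ η * (H : ℝ) ^ (d + 1)) ∧
    (∀ ε η : ℝ, 0 < ε → 0 < η → ∃ c : ℝ, 0 < c ∧ ∀ H : ℕ, 1 ≤ H →
        {ξ : ℝ | AlgNum d H ξ ∧ ∃ (p : ℤ) (q : ℕ), 2 ≤ q ∧ (q : ℝ) ≤ (H : ℝ) ^ κ ∧
          |ξ - (p : ℝ) / q| ≤ c / ((q : ℝ) ^ 2 * Real.log q ^ (1 + ε))}.Finite ∧
        ({ξ : ℝ | AlgNum d H ξ ∧ ∃ (p : ℤ) (q : ℕ), 2 ≤ q ∧ (q : ℝ) ≤ (H : ℝ) ^ κ ∧
          |ξ - (p : ℝ) / q| ≤ c / ((q : ℝ) ^ 2 * Real.log q ^ (1 + ε))}.ncard : ℝ) ≤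
          η * (H : ℝ) ^ (d + 1)) := by
  refine ⟨?_, ?_⟩
  · intro ψ hψ0 hψa hψs η hη
    obtain ⟨c, hc, h⟩ := Pool.Agent.V8H9.LC.khintchine d hd κ hκ ψ hψ0 hψa hψs η hη
    refine ⟨c, hc, fun H hH => ?_⟩
    have h1 := h H hH
    simp only [← mul_div_assoc] at h1
    exact h1
  · intro ε η hε hη
    obtain ⟨c, hc, h⟩ := Pool.Agent.V8H9.LC.khintchine d hd κ hκ (lang ε) (lang_nonneg ε)
      (lang_anti ε hε) (lang_summable ε hε) η hη
    refine ⟨c, hc, fun H hH => ?_⟩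
    obtain ⟨h1, h2⟩ := h H hH
    have hsub : {ξ : ℝ | AlgNum d H ξ ∧ ∃ (p : ℤ) (q : ℕ), 2 ≤ q ∧ (q : ℝ) ≤ (H : ℝ) ^ κ ∧
          |ξ - (p : ℝ) / q| ≤ c / ((q : ℝ) ^ 2 * Real.log q ^ (1 + ε))} ⊆
        {ξ : ℝ | Pool.Agent.V8H9.LC.AlgN d H ξ ∧ ∃ (p : ℤ) (q : ℕ), 1 ≤ q ∧
          (q : ℝ) ≤ (H : ℝ) ^ κ ∧ |ξ - (p : ℝ) / q| ≤ c * (lang ε q / q)} := by
      rintro ξ ⟨hξ, p, q, hq2, hqκ, hle⟩
      rw [lang_div ε c q hq2] at hle
      exact ⟨hξ, p, q, by omega, hqκ, hle⟩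
    refine ⟨h1.subset hsub, ?_⟩
    refine le_trans ?_ h2
    exact_mod_cast Set.ncard_le_ncard hsub h1

end Pool.Agent.Results.MP_c307ca_nt.HalfDegreeRange
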