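import Pool.Agent.V8H9.LD.Fin
import Pool.Agent.V8H9.LD.Low
import Pool.Agent.Results.MP_c307ca_nt.HalfDegreeRange

/-!
# Lang's inequality for almost all real algebraic integers of degree `d`

Almost all real algebraic integers of degree `d` and height at most `H` satisfy Lang's inequality, with one
constant, for all denominators up to `H ^ κ`, for every `κ < (d - 1) / 2`; those in a bounded interval
satisfy it for every `κ < d / 2`. The same holds for every nonincreasing summable approximation function.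

Method. In a bounded interval one has to count the lower coefficients `F` for which the inhomogeneous
inequality `|θ ^ d + F(θ)| ≤ η` has a solution `θ` in a given finite set. If there is no integer vector
close to a short multiple of `(1, θ, …, θ ^ (d - 1))` then the differences of two solutions are counted by
Minkowski's second theorem. Otherwise the products of the solutions with the shortest such vector `w` take
boundedly many values, also when `θ` varies, and the differences of two solutions with the same product are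
orthogonal to `w`. The number of these `w` is estimated with Siegel's lemma and the quantitative
nondivergence estimate of Kleinbock and Margulis (as proved in the starting file
`MP_c5a493_nt/UniformBound`). A large real root of a monic polynomial of height `H` is of the size of `H`
with few exceptions, and then the inequality is triangular and its solutions are counted by induction.
-/

set_option autoImplicit false

namespace Pool.Agent.Results.MP_c307ca_nt.AlgebraicIntegers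

open Filter
open Pool.Agent.Results.MP_c307ca_nt.HalfDegreeRange (lang lang_nonneg lang_anti lang_summable
  lang_div)
open Pool.Agent.Results.MP_c307ca_nt.AlmostAllToHeight (ev)

/-- `ξ` is a real algebraic integer of degree `d` and height at most `H`: it is a root of a monic integer
polynomial of degree `d` which is irreducible over `ℚ` and has coefficients of absolute value at
most `H`. -/
def AlgInt (d H : ℕ) (ξ : ℝ) : Prop :=
  ∃ P : Polynomial ℤ, P.Monic ∧ P.natDegree = d ∧ (∀ i, |P.coeff i| ≤ (H : ℤ)) ∧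
    Irreducible (P.map (Int.castRingHom ℚ)) ∧ Polynomial.aeval ξ P = 0

/-- Khintchine's inequality with the function `ψ` and the constant `c` fails for some denominator at
most `Q` -/
def KhintchineFails (c : ℝ) (ψ : ℕ → ℝ) (Q ξ : ℝ) : Prop :=
  ∃ (p : ℤ) (q : ℕ), 1 ≤ q ∧ (q : ℝ) ≤ Q ∧ |ξ - (p : ℝ) / q| ≤ c * ψ q / q

/-- Lang's inequality with the exponent `1 + ε` and the constant `c` fails for some denominator at
most `Q` -/
def LangFails (c ε Q ξ : ℝ) : Prop :=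
  ∃ (p : ℤ) (q : ℕ), 2 ≤ q ∧ (q : ℝ) ≤ Q ∧
    |ξ - (p : ℝ) / q| ≤ c / ((q : ℝ) ^ 2 * Real.log q ^ (1 + ε))

theorem LangFails.khintchine {c ε Q ξ : ℝ} (h : LangFails c ε Q ξ) :
    ∃ (p : ℤ) (q : ℕ), 1 ≤ q ∧ (q : ℝ) ≤ Q ∧ |ξ - (p : ℝ) / q| ≤ c * (lang ε q / q) := by
  obtain ⟨p, q, hq2, hqQ, hle⟩ := h
  rw [lang_div ε c q hq2] at hle
  exact ⟨p, q, by omega, hqQ, hle⟩

theorem khintchine_iff {c : ℝ} {ψ : ℕ → ℝ} {Q ξ : ℝ} : KhintchineFails c ψ Q ξ ↔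
    ∃ (p : ℤ) (q : ℕ), 1 ≤ q ∧ (q : ℝ) ≤ Q ∧ |ξ - (p : ℝ) / q| ≤ c * (ψ q / q) := by
  unfold KhintchineFails
  simp only [mul_div_assoc]

theorem main_all (n : ℕ) (hn : 1 ≤ n) (κ : ℝ) (hκ : κ < (n : ℝ) / 2)
    (ψ : ℕ → ℝ) (hψ0 : ∀ q, 0 ≤ ψ q) (hψa : Antitone ψ) (hψs : Summable ψ) (η : ℝ) (hη : 0 < η) :
    ∃ c : ℝ, 0 < c ∧ ∀ H : ℕ, 1 ≤ H →
      {ξ : ℝ | Pool.Agent.V8H9.LD.AlgI (n + 1) H ξ ∧ True ∧
        ∃ (p : ℤ) (q : ℕ), 1 ≤ q ∧ (q : ℝ) ≤ (H : ℝ) ^ κ ∧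
        |ξ - (p : ℝ) / q| ≤ c * (ψ q / q)}.Finite ∧
      ({ξ : ℝ | Pool.Agent.V8H9.LD.AlgI (n + 1) H ξ ∧ True ∧
        ∃ (p : ℤ) (q : ℕ), 1 ≤ q ∧ (q : ℝ) ≤ (H : ℝ) ^ κ ∧
        |ξ - (p : ℝ) / q| ≤ c * (ψ q / q)}.ncard : ℝ) ≤ η * (H : ℝ) ^ (n + 1) := by
  apply Pool.Agent.V8H9.LD.all_heights n hn κ (fun _ => True) ψ hψ0 hψa _ η hη
  intro η' hη'
  obtain ⟨c, hc, h⟩ := Pool.Agent.V8H9.LD.monic_all n hn κ hκ ψ hψ0 hψa hψs η' hη'
  refine ⟨c, hc, ?_⟩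
  filter_upwards [h] with H hH
  intro BB hB
  apply hH BB
  intro a ha
  obtain ⟨h1, ξ, h2, _, h3⟩ := hB a ha
  exact ⟨h1, ξ, h2, h3⟩

theorem main_bounded (n : ℕ) (hn : 1 ≤ n) (κ : ℝ) (hκ : κ < ((n : ℝ) + 1) / 2) (T : ℝ)
    (ψ : ℕ → ℝ) (hψ0 : ∀ q, 0 ≤ ψ q) (hψa : Antitone ψ) (hψs : Summable ψ) (η : ℝ) (hη : 0 < η) :
    ∃ c : ℝ, 0 < c ∧ ∀ H : ℕ, 1 ≤ H →
      {ξ : ℝ | Pool.Agent.V8H9.LD.AlgI (n + 1) H ξ ∧ |ξ| ≤ T ∧
        ∃ (p : ℤ) (q : ℕ), 1 ≤ q ∧ (q : ℝ) ≤ (H : ℝ) ^ κ ∧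
        |ξ - (p : ℝ) / q| ≤ c * (ψ q / q)}.Finite ∧
      ({ξ : ℝ | Pool.Agent.V8H9.LD.AlgI (n + 1) H ξ ∧ |ξ| ≤ T ∧
        ∃ (p : ℤ) (q : ℕ), 1 ≤ q ∧ (q : ℝ) ≤ (H : ℝ) ^ κ ∧
        |ξ - (p : ℝ) / q| ≤ c * (ψ q / q)}.ncard : ℝ) ≤ η * (H : ℝ) ^ (n + 1) := by
  apply Pool.Agent.V8H9.LD.all_heights n hn κ (fun ξ => |ξ| ≤ T) ψ hψ0 hψa _ η hη
  intro η' hη'
  obtain ⟨c, hc, h⟩ := Pool.Agent.V8H9.LD.monic_bounded n ⌈T⌉₊ hn κ hκ ψ hψ0 hψa hψs η' hη'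
  refine ⟨c, hc, ?_⟩
  filter_upwards [h] with H hH
  intro BB hB
  apply hH BB
  intro a ha
  obtain ⟨h1, ξ, h2, h3, h4⟩ := hB a ha
  exact ⟨h1, ξ, h2, h3.trans (Nat.le_ceil T), h4⟩

/-- **Lang's inequality for almost all real algebraic integers of degree `d`.** Let `d ≥ 2`.

(1) For every `H` there are only finitely many real algebraic integers of degree `d` and height at
most `H`, and for `H ≥ 8` at least `(H / 16)^d` of them are in `[0, 1]`.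

(2) For every `κ < (d - 1) / 2`, every nonnegative nonincreasing summable `ψ` and every `η > 0` there is
`c > 0` such that for every `H ≥ 1` all but at most `η H^d` of the real algebraic integers of degree `d`
and height at most `H` satisfy `|ξ - p/q| > c ψ(q) / q` for all integers `p` and all `1 ≤ q ≤ H^κ`.

(3) For every `κ < d / 2`, every `T`, every nonnegative nonincreasing summable `ψ` and every `η > 0`
there is `c > 0` such that for every `H ≥ 1` all but at most `η H^d` of the real algebraic integers of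
degree `d` and height at most `H` in `[-T, T]` satisfy `|ξ - p/q| > c ψ(q) / q` for all integers `p` and
all `1 ≤ q ≤ H^κ`.

(4) The conclusion of (2) with Lang's inequality `|ξ - p/q| > c / (q² (log q)^(1+ε))` for all `p` and
`2 ≤ q ≤ H^κ`, for all `ε > 0`.

(5) The conclusion of (3) with Lang's inequality, for all `ε > 0`. -/
theorem result (d : ℕ) (hd : 2 ≤ d) :
    (∀ H : ℕ, {ξ : ℝ | AlgInt d H ξ}.Finite ∧ (8 ≤ H →
      ((H : ℝ) / 16) ^ d ≤ ({ξ : ℝ | AlgInt d H ξ ∧ 0 ≤ ξ ∧ ξ ≤ 1}.ncard : ℝ))) ∧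
    (∀ κ : ℝ, κ < ((d : ℝ) - 1) / 2 → ∀ ψ : ℕ → ℝ, (∀ q, 0 ≤ ψ q) → Antitone ψ → Summable ψ →
      ∀ η : ℝ, 0 < η → ∃ c : ℝ, 0 < c ∧ ∀ H : ℕ, 1 ≤ H →
        ({ξ : ℝ | AlgInt d H ξ ∧ KhintchineFails c ψ ((H : ℝ) ^ κ) ξ}.ncard : ℝ) ≤
          η * (H : ℝ) ^ d) ∧
    (∀ κ : ℝ, κ < (d : ℝ) / 2 → ∀ T : ℝ, ∀ ψ : ℕ → ℝ, (∀ q, 0 ≤ ψ q) → Antitone ψ → Summable ψ →
      ∀ η : ℝ, 0 < η → ∃ c : ℝ, 0 < c ∧ ∀ H : ℕ, 1 ≤ H →
        ({ξ : ℝ | AlgInt d H ξ ∧ |ξ| ≤ T ∧ KhintchineFails c ψ ((H : ℝ) ^ κ) ξ}.ncard : ℝ) ≤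
          η * (H : ℝ) ^ d) ∧
    (∀ κ : ℝ, κ < ((d : ℝ) - 1) / 2 → ∀ ε η : ℝ, 0 < ε → 0 < η → ∃ c : ℝ, 0 < c ∧
      ∀ H : ℕ, 1 ≤ H →
        ({ξ : ℝ | AlgInt d H ξ ∧ LangFails c ε ((H : ℝ) ^ κ) ξ}.ncard : ℝ) ≤
          η * (H : ℝ) ^ d) ∧
    (∀ κ : ℝ, κ < (d : ℝ) / 2 → ∀ T ε η : ℝ, 0 < ε → 0 < η → ∃ c : ℝ, 0 < c ∧
      ∀ H : ℕ, 1 ≤ H →
        ({ξ : ℝ | AlgInt d H ξ ∧ |ξ| ≤ T ∧ LangFails c ε ((H : ℝ) ^ κ) ξ}.ncard : ℝ) ≤
          η * (H : ℝ) ^ d) := by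
  obtain ⟨n, rfl⟩ : ∃ n, d = n + 1 := ⟨d - 1, by omega⟩
  have hn : 1 ≤ n := by omega
  have e1 : (((n + 1 : ℕ) : ℝ) - 1) / 2 = (n : ℝ) / 2 := by
    push_cast
    ring
  have e2 : ((n + 1 : ℕ) : ℝ) / 2 = ((n : ℝ) + 1) / 2 := by
    push_cast
    ring
  rw [e1, e2]
  refine ⟨?_, ?_, ?_, ?_, ?_⟩
  · intro H
    have hfin : {ξ : ℝ | AlgInt (n + 1) H ξ}.Finite := by
      have h := (Pool.Agent.V8H9.LD.roots_count_monic n (H + 1) (fun _ => True)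
        (3 ^ (n + 1) * ((H + 1 : ℕ) : ℝ) ^ (n + 1)) (by
          intro BB hB
          have hH1 : (1 : ℝ) ≤ ((H + 1 : ℕ) : ℝ) := by
            have : 1 ≤ H + 1 := by omega
            exact_mod_cast this
          exact Pool.Agent.V8H9.LC.box_count ((H + 1 : ℕ) : ℝ) hH1 BB (fun F hF i => by
            have := (hB F hF).1 i
            exact_mod_cast this))).1
      refine h.subset ?_
      rintro ξ ⟨P, h1, h2, h3, h4, h5⟩
      refine ⟨⟨P, h1, h2, fun i => (h3 i).trans ?_, h4, h5⟩, trivial⟩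
      push_cast
      linarith
    refine ⟨hfin, fun hH => ?_⟩
    apply Pool.Agent.V8H9.LD.many n H hn hH
    · exact hfin.subset fun ξ hξ => hξ.1
    · intro P x h1 h2 h3 h4 h5 h6 h7
      exact ⟨⟨P, h1, h2, h3, h4, h5⟩, h6, h7⟩
  · intro κ hκ ψ hψ0 hψa hψs η hη
    obtain ⟨c, hc, h⟩ := main_all n hn κ hκ ψ hψ0 hψa hψs η hη
    refine ⟨c, hc, fun H hH => ?_⟩
    obtain ⟨h1, h2⟩ := h H hH
    refine le_trans (Nat.cast_le.mpr (Set.ncard_le_ncard ?_ h1)) h2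
    intro ξ hξ
    exact ⟨hξ.1, trivial, khintchine_iff.mp hξ.2⟩
  · intro κ hκ T ψ hψ0 hψa hψs η hη
    obtain ⟨c, hc, h⟩ := main_bounded n hn κ hκ T ψ hψ0 hψa hψs η hη
    refine ⟨c, hc, fun H hH => ?_⟩
    obtain ⟨h1, h2⟩ := h H hH
    refine le_trans (Nat.cast_le.mpr (Set.ncard_le_ncard ?_ h1)) h2
    intro ξ hξ
    exact ⟨hξ.1, hξ.2.1, khintchine_iff.mp hξ.2.2⟩
  · intro κ hκ ε η hε hη
    obtain ⟨c, hc, h⟩ := main_all n hn κ hκ (lang ε) (lang_nonneg ε) (lang_anti ε hε)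
      (lang_summable ε hε) η hη
    refine ⟨c, hc, fun H hH => ?_⟩
    obtain ⟨h1, h2⟩ := h H hH
    refine le_trans (Nat.cast_le.mpr (Set.ncard_le_ncard ?_ h1)) h2
    intro ξ hξ
    exact ⟨hξ.1, trivial, hξ.2.khintchine⟩
  · intro κ hκ T ε η hε hη
    obtain ⟨c, hc, h⟩ := main_bounded n hn κ hκ T (lang ε) (lang_nonneg ε) (lang_anti ε hε)
      (lang_summable ε hε) η hη
    refine ⟨c, hc, fun H hH => ?_⟩
    obtain ⟨h1, h2⟩ := h H hH
    refine le_trans (Nat.cast_le.mpr (Set.ncard_le_ncard ?_ h1)) h2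
    intro ξ hξ
    exact ⟨hξ.1, hξ.2.1, hξ.2.2.khintchine⟩

end Pool.Agent.Results.MP_c307ca_nt.AlgebraicIntegers
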