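import Pool.Agent.V8H86.GL.Main
import Pool.Agent.N965.LN.Sch
import Pool.Agent.N965.LN.Cnt
import Pool.Agent.N965.LN.Log

set_option autoImplicit false

/-!
# Lang's inequality for almost all elements of every finitely generated group of algebraic numbers

Let `ξ 1, …, ξ m` be fixed real algebraic numbers such that `1, ξ 1, …, ξ m` are linearly independent
over `ℚ` (for instance such that `1, ξ 1, …, ξ m` is a basis of the ring of integers, or of any order,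
of a real number field). For a denominator `b`, a real number `θ` and a box of side lengths
`H 1, …, H m`, which may be anywhere, there are `N = b H 1 ⋯ H m` numbers
`α = (a₀ + θ + a 1 ξ 1 + ⋯ + a m ξ m) / b` with `0 ≤ a₀ < b` and `a` in the box. For every `κ < 1` and
`η > 0` there is `c > 0` such that for all `b`, `θ` and all boxes with large `N` all but at most `η N` of
these numbers satisfy Lang's inequality `|α - p / q| > c / (q² (log q)^(1+ε))` for `2 ≤ q ≤ N ^ κ`, and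
more generally `|α - p / q| > c ψ(q) / q` for a nonincreasing summable function `ψ`. There is no average
over the denominators `b` (the case `b = 1` gives almost all elements of a finitely generated group).

Method: for every `q` the numerators are counted with the Fejér majorant; the sums of the products of
Fejér kernels at the multiples of `(ξ 1, …, ξ m)` are estimated by Schmidt's theorem on simultaneous
approximation, in the form of the starting files `Pool.Agent.N965.LN` (for cubes centred at `0`, and on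
the average over `b`), which are adapted here to one `b`, to shifts and to arbitrary boxes.
-/

namespace Pool.Agent.Results.MP_c307ca_nt.FinitelyGeneratedGroups

open Finset Pool.Agent.N965 Pool.Agent.V8H86.GL

/-- The number `(a₀ + θ + a 1 ξ 1 + ⋯ + a m ξ m) / b`, for `x = (a₀, a)`. -/
noncomputable def num {m : ℕ} (ξ : Fin m → ℝ) (θ : ℝ) (b : ℕ) (x : ℤ × (Fin m → ℤ)) : ℝ :=
  ((x.1 : ℝ) + θ + ∑ i, (x.2 i : ℝ) * ξ i) / b

/-- The pairs `(a₀, a)` with `0 ≤ a₀ < b` and `A i < a i ≤ A i + H i` for all `i`. -/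
noncomputable def Cell {m : ℕ} (b : ℕ) (A : Fin m → ℤ) (H : Fin m → ℕ) : Finset (ℤ × (Fin m → ℤ)) :=
  Ico 0 (b : ℤ) ×ˢ Fintype.piFinset fun i => Ioc (A i) (A i + H i)

/-- `|α - p / q| > c ψ(q) / q` for all integers `p` and all `1 ≤ q ≤ Y`. -/
def KhintchineUpTo (Y c : ℝ) (ψ : ℕ → ℝ) (α : ℝ) : Prop :=
  ∀ (p : ℤ) (q : ℕ), 1 ≤ q → (q : ℝ) ≤ Y → c * ψ q / q < |α - (p : ℝ) / q|

/-- Lang's inequality for the number `α` with the constant `c`, for the denominators up to `Y`. -/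
def LangUpTo (Y c ε α : ℝ) : Prop :=
  ∀ (p : ℤ) (q : ℕ), 2 ≤ q → (q : ℝ) ≤ Y →
    c / ((q : ℝ) ^ 2 * Real.log q ^ (1 + ε)) < |α - (p : ℝ) / q|

theorem lang_of_khintchine {Y c ε α : ℝ} (h : KhintchineUpTo Y c (LN.lang ε) α) :
    LangUpTo Y c ε α := by
  intro p q hq hY
  have h1 := h p q (by omega) hY
  have h2 := LN.lang_eq ε q hq
  rw [mul_div_assoc, h2, mul_one_div] at h1
  exact h1

theorem lang_mono {Y Y' c c' ε α : ℝ} (hY : Y ≤ Y') (hc : c ≤ c') (h : LangUpTo Y' c' ε α) :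
    LangUpTo Y c ε α := by
  intro p q hq hqY
  refine lt_of_le_of_lt ?_ (h p q hq (hqY.trans hY))
  have h1 : 1 < (q : ℝ) := by exact_mod_cast (show 1 < q by omega)
  have h2 : 0 < Real.log q := Real.log_pos h1
  exact div_le_div_of_nonneg_right hc (by positivity)

theorem mem_cell {m : ℕ} {b : ℕ} {A : Fin m → ℤ} {H : Fin m → ℕ} {x : ℤ × (Fin m → ℤ)} :
    x ∈ Cell b A H ↔ (0 ≤ x.1 ∧ x.1 < b) ∧ ∀ i, A i < x.2 i ∧ x.2 i ≤ A i + H i := by
  unfold Cell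
  simp only [Finset.mem_product, Finset.mem_Ico, Fintype.mem_piFinset, Finset.mem_Ioc]

theorem card_cell {m : ℕ} (b : ℕ) (A : Fin m → ℤ) (H : Fin m → ℕ) :
    (Cell b A H).card = b * ∏ i, H i := by
  unfold Cell
  have h1 : ((b : ℤ) - 0).toNat = b := by omega
  have h2 : ∏ i, (Ioc (A i) (A i + H i)).card = ∏ i, H i := by
    refine Finset.prod_congr rfl fun i _ => ?_
    rw [Int.card_Ioc]
    omega
  rw [Finset.card_product, Int.card_Ico, Fintype.card_piFinset, h1, h2]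

theorem indep {m : ℕ} {ξ : Fin m → ℝ} (hind : LinearIndependent ℚ (Fin.cons 1 ξ : Fin (m + 1) → ℝ))
    (a : Fin m → ℤ) (a₀ : ℤ) (h : (a₀ : ℝ) + ∑ i, (a i : ℝ) * ξ i = 0) : a₀ = 0 ∧ a = 0 := by
  have h1 := Fintype.linearIndependent_iff.1 hind (Fin.cons (a₀ : ℚ) fun i => (a i : ℚ)) (by
      rw [Fin.sum_univ_succ]
      simp only [Fin.cons_zero, Fin.cons_succ]
      have h2 : ∀ (x : ℚ) (y : ℝ), x • y = (x : ℝ) * y := fun x y => Rat.smul_def x y
      simp only [h2]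
      push_cast
      simpa using h)
  constructor
  · have h2 := h1 0
    rw [Fin.cons_zero] at h2
    exact_mod_cast h2
  · funext i
    have h2 := h1 i.succ
    rw [Fin.cons_succ] at h2
    exact_mod_cast h2

theorem inj {m : ℕ} {ξ : Fin m → ℝ} (hind : LinearIndependent ℚ (Fin.cons 1 ξ : Fin (m + 1) → ℝ))
    (θ : ℝ) (b : ℕ) (hb : 1 ≤ b) : Function.Injective (num ξ θ b) := by
  intro x y hxy
  have hb0 : (b : ℝ) ≠ 0 := by
    have : (0 : ℝ) < b := by exact_mod_cast hb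
    exact this.ne'
  unfold num at hxy
  rw [div_left_inj' hb0] at hxy
  have h1 := indep hind (x.2 - y.2) (x.1 - y.1) (by
    have h2 : ∑ i, (((x.2 - y.2) i : ℤ) : ℝ) * ξ i =
        ∑ i, (x.2 i : ℝ) * ξ i - ∑ i, (y.2 i : ℝ) * ξ i := by
      rw [← Finset.sum_sub_distrib]
      refine Finset.sum_congr rfl fun i _ => ?_
      rw [Pi.sub_apply]
      push_cast
      ring
    rw [h2]
    push_cast
    linarith)
  exact Prod.ext (sub_eq_zero.1 h1.1) (sub_eq_zero.1 h1.2)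

/-- the translation of the box to the origin -/
theorem cell_sub {m : ℕ} (ξ : Fin m → ℝ) (ψ : ℕ → ℝ) (θ : ℝ) (b : ℕ) (A : Fin m → ℤ)
    (H : Fin m → ℕ) (Y c : ℝ) :
    {x | x ∈ Cell b A H ∧ ¬ KhintchineUpTo Y c ψ (num ξ θ b x)} ⊆
      (fun y : ℤ × (Fin m → ℤ) => (y.1, y.2 + A)) ''
        Bad ξ ψ (θ + ∑ i, (A i : ℝ) * ξ i) b H Y c := by
  rintro x ⟨hx, hbad⟩
  rw [mem_cell] at hx
  refine ⟨(x.1, x.2 - A), ⟨hx.1.1, hx.1.2, fun i => ?_, ?_⟩, ?_⟩
  · have := hx.2 i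
    simp only [Pi.sub_apply]
    constructor <;> omega
  · unfold KhintchineUpTo at hbad
    push Not at hbad
    obtain ⟨p, q, h1, h2, h3⟩ := hbad
    refine ⟨p, q, h1, h2, ?_⟩
    have h4 : num ξ θ b x = ((x.1 : ℝ) + (θ + ∑ i, (A i : ℝ) * ξ i +
        ∑ i, (((x.2 - A) i : ℤ) : ℝ) * ξ i)) / b := by
      unfold num
      congr 1
      have h5 : ∑ i, (((x.2 - A) i : ℤ) : ℝ) * ξ i =
          ∑ i, (x.2 i : ℝ) * ξ i - ∑ i, (A i : ℝ) * ξ i := by
        rw [← Finset.sum_sub_distrib]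
        refine Finset.sum_congr rfl fun i _ => ?_
        rw [Pi.sub_apply]
        push_cast
        ring
      rw [h5]
      ring
    rw [h4] at h3
    exact h3
  · simp

theorem khintchine {m : ℕ} (hm : 1 ≤ m) (ξ : Fin m → ℝ) (halg : ∀ i, IsAlgebraic ℚ (ξ i))
    (hind : LinearIndependent ℚ (Fin.cons 1 ξ : Fin (m + 1) → ℝ)) (κ : ℝ) (hκ : κ < 1) (η : ℝ)
    (hη : 0 < η) (ψ : ℕ → ℝ) (hψ0 : ∀ q, 0 ≤ ψ q) (hψ : Antitone ψ) (hs : Summable ψ) :
    ∃ (c : ℝ) (N₀ : ℕ), 0 < c ∧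
      ∀ (θ : ℝ) (b : ℕ) (A : Fin m → ℤ) (H : Fin m → ℕ), 1 ≤ b → (∀ i, 1 ≤ H i) →
        N₀ ≤ b * ∏ i, H i →
        ({x | x ∈ Cell b A H ∧
          ¬ KhintchineUpTo (((b * ∏ i, H i : ℕ) : ℝ) ^ κ) c ψ (num ξ θ b x)}.ncard : ℝ) ≤
          η * ((b * ∏ i, H i : ℕ) : ℝ) := by
  have hcnt : LN.Cnt ξ := LN.t_CNT m _ (LN.t_SCH m _ hm halg fun a a₀ h => (indep hind a a₀ h).2)
  obtain ⟨c, N₀, hc, h⟩ := count hcnt κ hκ ψ hψ0 hψ hs η hη
  refine ⟨c, N₀, hc, fun θ b A H hb hH hN => ?_⟩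
  obtain ⟨h1, h2⟩ := h (θ + ∑ i, (A i : ℝ) * ξ i) b H hb hH hN
  have h3 := cell_sub ξ ψ θ b A H (((b * ∏ i, H i : ℕ) : ℝ) ^ κ) c
  have h4 := (Set.ncard_le_ncard h3 (h1.image _)).trans (Set.ncard_image_le h1)
  exact le_trans (by exact_mod_cast h4) h2

theorem fin_pos {ι : Type} (s : Finset ι) (v : ι → ℝ) (hv : ∀ i ∈ s, 0 < v i) :
    ∃ δ : ℝ, 0 < δ ∧ ∀ i ∈ s, δ ≤ v i := by
  classical
  induction s using Finset.induction_on with
  | empty => exact ⟨1, one_pos, by simp⟩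
  | insert i s _ ih =>
    obtain ⟨δ, hδ, h⟩ := ih fun j hj => hv j (Finset.mem_insert_of_mem hj)
    refine ⟨min δ (v i), lt_min hδ (hv i (Finset.mem_insert_self _ _)), fun j hj => ?_⟩
    rw [Finset.mem_insert] at hj
    rcases hj with rfl | hj
    · exact min_le_right _ _
    · exact (min_le_left _ _).trans (h j hj)

/-- finitely many irrational numbers -/
theorem small (S : Finset ℝ) (hS : ∀ α ∈ S, Irrational α) (Q : ℕ) (ε : ℝ) :
    ∃ c : ℝ, 0 < c ∧ ∀ α ∈ S, LangUpTo Q c ε α := by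
  obtain ⟨δ, hδ, h⟩ := fin_pos (S ×ˢ Icc 2 Q) (fun x => |x.1 - (round ((x.2 : ℝ) * x.1) : ℝ) / x.2| *
    ((x.2 : ℝ) ^ 2 * Real.log x.2 ^ (1 + ε))) (by
      rintro ⟨α, q⟩ hx
      rw [Finset.mem_product, Finset.mem_Icc] at hx
      have h1 : 1 < (q : ℝ) := by exact_mod_cast (show 1 < q by have := hx.2.1; simp only at this; omega)
      have h2 : 0 < Real.log q := Real.log_pos h1
      refine mul_pos (abs_pos.2 fun h3 => ?_) (by positivity)
      apply hS α hx.1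
      refine ⟨(round ((q : ℝ) * α) : ℚ) / q, ?_⟩
      push_cast
      simp only at h3
      linarith)
  refine ⟨δ / 2, by positivity, fun α hα p q hq hQ => ?_⟩
  have hQ' : q ≤ Q := by exact_mod_cast hQ
  have h1 := h (α, q) (Finset.mem_product.2 ⟨hα, Finset.mem_Icc.2 ⟨hq, hQ'⟩⟩)
  simp only at h1
  have h2 : 1 < (q : ℝ) := by exact_mod_cast (show 1 < q by omega)
  have h3 : 0 < Real.log q := Real.log_pos h2
  have h4 : 0 < (q : ℝ) ^ 2 * Real.log q ^ (1 + ε) := by positivity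
  rw [div_lt_iff₀ h4]
  have h5 : |α - (round ((q : ℝ) * α) : ℝ) / q| ≤ |α - (p : ℝ) / q| := by
    have h6 : (0 : ℝ) < q := by linarith
    have h7 : ∀ z : ℤ, |α - (z : ℝ) / q| = |(q : ℝ) * α - z| / q := by
      intro z
      rw [eq_div_iff h6.ne', ← abs_of_pos h6, ← abs_mul, abs_of_pos h6]
      congr 1
      field_simp
    rw [h7, h7]
    exact div_le_div_of_nonneg_right (round_le _ _) h6.le
  calc δ / 2 < δ := by linarith
    _ ≤ |α - (round ((q : ℝ) * α) : ℝ) / q| * ((q : ℝ) ^ 2 * Real.log q ^ (1 + ε)) := h1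
    _ ≤ _ := mul_le_mul_of_nonneg_right h5 h4.le

/-- **Lang's inequality for almost all elements of a finitely generated group.** Let `1, ξ 1, …, ξ m`,
`m ≥ 1`, be real algebraic numbers which are linearly independent over `ℚ`, `κ < 1` and `η > 0`.

(1) The `N = b H 1 ⋯ H m` numbers `num ξ θ b x`, `x` in `Cell b A H`, are pairwise different.

(2) For every nonincreasing summable `ψ ≥ 0` there are `c > 0` and `N₀` such that for all `θ`, `b`, `A`,
`H` with `N ≥ N₀` all but at most `η N` of these numbers `α` satisfy `|α - p / q| > c ψ(q) / q` for all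
integers `p` and all `1 ≤ q ≤ N ^ κ`.

(3) In particular, for every `ε > 0`, they satisfy Lang's inequality for `2 ≤ q ≤ N ^ κ`.

(4) For every fixed `θ` (for instance `θ = 0`) and `ε > 0` there is `c > 0` such that for all `b ≥ 1` and
all `H i ≥ 1` all but at most `η N`, `N = b H 1 ⋯ H m`, of the irrational numbers
`α = (a₀ + θ + a 1 ξ 1 + ⋯ + a m ξ m) / b` with `0 ≤ a₀ < b` and `|a i| ≤ H i` satisfy Lang's inequality
with the constant `c` for `2 ≤ q ≤ N ^ κ`. -/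
theorem result {m : ℕ} (hm : 1 ≤ m) (ξ : Fin m → ℝ) (halg : ∀ i, IsAlgebraic ℚ (ξ i))
    (hind : LinearIndependent ℚ (Fin.cons 1 ξ : Fin (m + 1) → ℝ)) (κ : ℝ) (hκ : κ < 1) (η : ℝ)
    (hη : 0 < η) :
    (∀ (θ : ℝ) (b : ℕ) (A : Fin m → ℤ) (H : Fin m → ℕ), 1 ≤ b →
      (Cell b A H).card = b * ∏ i, H i ∧ Set.InjOn (num ξ θ b) (Cell b A H)) ∧
    (∀ ψ : ℕ → ℝ, (∀ q, 0 ≤ ψ q) → Antitone ψ → Summable ψ → ∃ (c : ℝ) (N₀ : ℕ), 0 < c ∧
      ∀ (θ : ℝ) (b : ℕ) (A : Fin m → ℤ) (H : Fin m → ℕ), 1 ≤ b → (∀ i, 1 ≤ H i) →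
        N₀ ≤ b * ∏ i, H i →
        ({x | x ∈ Cell b A H ∧
          ¬ KhintchineUpTo (((b * ∏ i, H i : ℕ) : ℝ) ^ κ) c ψ (num ξ θ b x)}.ncard : ℝ) ≤
          η * ((b * ∏ i, H i : ℕ) : ℝ)) ∧
    (∀ ε : ℝ, 0 < ε → ∃ (c : ℝ) (N₀ : ℕ), 0 < c ∧
      ∀ (θ : ℝ) (b : ℕ) (A : Fin m → ℤ) (H : Fin m → ℕ), 1 ≤ b → (∀ i, 1 ≤ H i) →
        N₀ ≤ b * ∏ i, H i →
        ({x | x ∈ Cell b A H ∧
          ¬ LangUpTo (((b * ∏ i, H i : ℕ) : ℝ) ^ κ) c ε (num ξ θ b x)}.ncard : ℝ) ≤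
          η * ((b * ∏ i, H i : ℕ) : ℝ)) ∧
    ∀ θ ε : ℝ, 0 < ε → ∃ c : ℝ, 0 < c ∧
      ∀ (b : ℕ) (H : Fin m → ℕ), 1 ≤ b → (∀ i, 1 ≤ H i) →
        ({x : ℤ × (Fin m → ℤ) | (0 ≤ x.1 ∧ x.1 < b) ∧ (∀ i, |x.2 i| ≤ H i) ∧
          Irrational (num ξ θ b x) ∧
          ¬ LangUpTo (((b * ∏ i, H i : ℕ) : ℝ) ^ κ) c ε (num ξ θ b x)}.ncard : ℝ) ≤
          η * ((b * ∏ i, H i : ℕ) : ℝ) := by
  have hL : ∀ (κ η : ℝ), κ < 1 → 0 < η → ∀ ε : ℝ, 0 < ε → ∃ (c : ℝ) (N₀ : ℕ), 0 < c ∧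
      ∀ (θ : ℝ) (b : ℕ) (A : Fin m → ℤ) (H : Fin m → ℕ), 1 ≤ b → (∀ i, 1 ≤ H i) →
        N₀ ≤ b * ∏ i, H i →
        ({x | x ∈ Cell b A H ∧
          ¬ LangUpTo (((b * ∏ i, H i : ℕ) : ℝ) ^ κ) c ε (num ξ θ b x)}.ncard : ℝ) ≤
          η * ((b * ∏ i, H i : ℕ) : ℝ) := by
    intro κ η hκ hη ε hε
    obtain ⟨c, N₀, hc, h⟩ := khintchine hm ξ halg hind κ hκ η hη (LN.lang ε) (LN.lang_nonneg ε)
      (LN.lang_anti ε hε) (LN.lang_summable ε hε)
    refine ⟨c, N₀, hc, fun θ b A H hb hH hN => le_trans ?_ (h θ b A H hb hH hN)⟩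
    have h1 : {x | x ∈ Cell b A H ∧
          ¬ LangUpTo (((b * ∏ i, H i : ℕ) : ℝ) ^ κ) c ε (num ξ θ b x)} ⊆
        {x | x ∈ Cell b A H ∧
          ¬ KhintchineUpTo (((b * ∏ i, H i : ℕ) : ℝ) ^ κ) c (LN.lang ε) (num ξ θ b x)} :=
      fun x hx => ⟨hx.1, fun h2 => hx.2 (lang_of_khintchine h2)⟩
    have h2 : {x | x ∈ Cell b A H ∧
          ¬ KhintchineUpTo (((b * ∏ i, H i : ℕ) : ℝ) ^ κ) c (LN.lang ε) (num ξ θ b x)}.Finite :=
      (Cell b A H).finite_toSet.subset fun x hx => hx.1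
    exact_mod_cast Set.ncard_le_ncard h1 h2
  refine ⟨fun θ b A H hb => ⟨card_cell b A H, (inj hind θ b hb).injOn⟩,
    fun ψ hψ0 hψ hs => khintchine hm ξ halg hind κ hκ η hη ψ hψ0 hψ hs, hL κ η hκ hη, ?_⟩
  intro θ ε hε
  classical
  obtain ⟨κ', hκ'⟩ : ∃ κ', κ' = max κ 0 := ⟨_, rfl⟩
  have hκ0 : 0 ≤ κ' := by rw [hκ']; exact le_max_right _ _
  have hκκ : κ ≤ κ' := by rw [hκ']; exact le_max_left _ _
  have hκ1 : κ' < 1 := by rw [hκ']; exact max_lt hκ one_pos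
  obtain ⟨c₁, N₀, hc₁, h1⟩ := hL κ' (η / 3 ^ m) hκ1 (by positivity) ε hε
  -- the finitely many small boxes
  set T : Finset (ℕ × (ℤ × (Fin m → ℤ))) := (range (N₀ + 1)) ×ˢ (Icc (-(N₀ : ℤ)) N₀ ×ˢ
    Fintype.piFinset fun _ => Icc (-(N₀ : ℤ)) N₀) with hT
  obtain ⟨c₂, hc₂, h2⟩ := small ((T.image fun y => num ξ θ y.1 y.2).filter fun α => Irrational α)
    (fun α hα => (Finset.mem_filter.1 hα).2) N₀ ε
  refine ⟨min c₁ c₂, lt_min hc₁ hc₂, fun b H hb hH => ?_⟩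
  obtain ⟨N, hN⟩ : ∃ N, N = b * ∏ i, H i := ⟨_, rfl⟩
  obtain ⟨N', hN'⟩ : ∃ N', N' = b * ∏ i, (2 * H i + 1) := ⟨_, rfl⟩
  rw [← hN]
  have hN1 : 1 ≤ N := by
    rw [hN]
    exact Nat.mul_pos hb (one_le_prod hH)
  have hNN : N ≤ N' := by
    rw [hN, hN']
    exact Nat.mul_le_mul_left _ (Finset.prod_le_prod' fun i _ => by omega)
  have hN3 : N' ≤ 3 ^ m * N := by
    have h3 : ∏ i, (2 * H i + 1) ≤ ∏ i, (3 * H i) :=
      Finset.prod_le_prod' fun i _ => by have := hH i; omega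
    have h4 : ∏ i, (3 * H i) = 3 ^ m * ∏ i, H i := by
      rw [Finset.prod_mul_distrib, Finset.prod_const, Finset.card_univ, Fintype.card_fin]
    rw [h4] at h3
    rw [hN, hN']
    calc b * ∏ i, (2 * H i + 1) ≤ b * (3 ^ m * ∏ i, H i) := Nat.mul_le_mul_left _ h3
      _ = _ := by ring
  have hNr : (1 : ℝ) ≤ N := by exact_mod_cast hN1
  have hNr' : (1 : ℝ) ≤ N' := by exact_mod_cast hN1.trans hNN
  have hpow : (N : ℝ) ^ κ ≤ (N' : ℝ) ^ κ' :=
    (Real.rpow_le_rpow_of_exponent_le hNr hκκ).trans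
      (Real.rpow_le_rpow (by positivity) (by exact_mod_cast hNN) hκ0)
  rcases le_or_gt N₀ N' with hle | hlt
  · have h3 := h1 θ b (fun i => -(H i : ℤ) - 1) (fun i => 2 * H i + 1) hb (fun i => by omega)
      (by rw [← hN']; exact hle)
    rw [← hN'] at h3
    have h4 : {x : ℤ × (Fin m → ℤ) | (0 ≤ x.1 ∧ x.1 < b) ∧ (∀ i, |x.2 i| ≤ H i) ∧
          Irrational (num ξ θ b x) ∧ ¬ LangUpTo ((N : ℝ) ^ κ) (min c₁ c₂) ε (num ξ θ b x)} ⊆
        {x | x ∈ Cell b (fun i => -(H i : ℤ) - 1) (fun i => 2 * H i + 1) ∧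
          ¬ LangUpTo ((N' : ℝ) ^ κ') c₁ ε (num ξ θ b x)} := by
      rintro x ⟨h5, h6, _, h8⟩
      refine ⟨mem_cell.2 ⟨h5, fun i => ?_⟩, fun h9 => h8 (lang_mono hpow (min_le_left _ _) h9)⟩
      have h7 := abs_le.1 (h6 i)
      push_cast
      constructor <;> omega
    have h5 : {x | x ∈ Cell b (fun i => -(H i : ℤ) - 1) (fun i => 2 * H i + 1) ∧
          ¬ LangUpTo ((N' : ℝ) ^ κ') c₁ ε (num ξ θ b x)}.Finite :=
      (Cell b (fun i => -(H i : ℤ) - 1) (fun i => 2 * H i + 1)).finite_toSet.subset fun x hx => hx.1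
    have h6 := Set.ncard_le_ncard h4 h5
    have h7 : (N' : ℝ) ≤ 3 ^ m * N := by exact_mod_cast hN3
    have h8 : η / 3 ^ m * (N' : ℝ) ≤ η * N := by
      calc η / 3 ^ m * (N' : ℝ) ≤ η / 3 ^ m * (3 ^ m * N) :=
            mul_le_mul_of_nonneg_left h7 (by positivity)
        _ = η * N := by field_simp
    exact le_trans (by exact_mod_cast h6) (h3.trans h8)
  · have hbN : b ≤ N' := by
      rw [hN']
      exact Nat.le_mul_of_pos_right _ (Finset.prod_pos fun i _ => by omega)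
    have hHN : ∀ i, H i ≤ N' := fun i => by
      have h3 := le_prod (H := fun i => 2 * H i + 1) (fun i => by omega) i
      have h4 : ∏ i, (2 * H i + 1) ≤ N' := by
        rw [hN']
        exact Nat.le_mul_of_pos_left _ hb
      omega
    have h3 : {x : ℤ × (Fin m → ℤ) | (0 ≤ x.1 ∧ x.1 < b) ∧ (∀ i, |x.2 i| ≤ H i) ∧
          Irrational (num ξ θ b x) ∧ ¬ LangUpTo ((N : ℝ) ^ κ) (min c₁ c₂) ε (num ξ θ b x)} = ∅ := by
      rw [Set.eq_empty_iff_forall_notMem]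
      rintro x ⟨h5, h6, h7, h8⟩
      apply h8
      have h9 : num ξ θ b x ∈ (T.image fun y => num ξ θ y.1 y.2).filter fun α => Irrational α := by
        refine Finset.mem_filter.2 ⟨Finset.mem_image.2 ⟨(b, x), ?_, rfl⟩, h7⟩
        rw [hT, Finset.mem_product, Finset.mem_product, Finset.mem_range, Finset.mem_Icc,
          Fintype.mem_piFinset]
        refine ⟨?_, ⟨?_, ?_⟩, fun i => ?_⟩
        · show b < N₀ + 1
          omega
        · show -(N₀ : ℤ) ≤ x.1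
          omega
        · show x.1 ≤ (N₀ : ℤ)
          omega
        have h10 := abs_le.1 (h6 i)
        have h11 := hHN i
        rw [Finset.mem_Icc]
        constructor
        · show -(N₀ : ℤ) ≤ x.2 i
          omega
        · show x.2 i ≤ (N₀ : ℤ)
          omega
      refine lang_mono ?_ (min_le_right _ _) (h2 _ h9)
      refine hpow.trans ?_
      calc (N' : ℝ) ^ κ' ≤ (N' : ℝ) ^ (1 : ℝ) := Real.rpow_le_rpow_of_exponent_le hNr' hκ1.le
        _ = N' := Real.rpow_one _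
        _ ≤ N₀ := by exact_mod_cast hlt.le
    rw [h3, Set.ncard_empty]
    simp only [Nat.cast_zero]
    positivity

end Pool.Agent.Results.MP_c307ca_nt.FinitelyGeneratedGroups
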