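import Pool.Agent.V8H9.LD.Fin
import Pool.Agent.V8H9.LD.AsmA
import Pool.Agent.Results.MP_c307ca_nt.HalfDegreeRange
import Pool.Agent.V8H34.PC2.Units

/-!
# Lang's inequality for almost all algebraic numbers with prescribed coefficients

All but `k ≥ 2` consecutive coefficients of an irreducible integer polynomial of degree `d` are prescribed,
arbitrarily and with full uniformity. Almost all of the `~ (2 H) ^ k` choices of the remaining coefficients give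
numbers which satisfy Lang's inequality for all denominators up to `H ^ κ`, `κ < k / 2`. For example, this holds for
trinomials `X ^ d + a X + b` (`κ < 1`) and for the algebraic units of degree `d ≥ 3` (`κ < (d - 1) / 2`).

The count of the polynomials is `Pool.Agent.V8H9.LD.approx_aff`; it was used in `AlgebraicIntegers` for monic
polynomials with all other coefficients free.
-/

set_option autoImplicit false

namespace Pool.Agent.Results.MP_c307ca_nt.PrescribedCoefficients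

open Filter Polynomial
open Pool.Agent.Results.MP_c307ca_nt.HalfDegreeRange (lang lang_nonneg lang_anti lang_summable
  lang_div)
open Pool.Agent.Results.MP_c307ca_nt.AlmostAllToHeight (ev box mem_box)

/-- Khintchine's inequality with the function `ψ` and the constant `c` fails for some denominator at
most `Q` -/
def KhintchineFails (c : ℝ) (ψ : ℕ → ℝ) (Q ξ : ℝ) : Prop :=
  ∃ (p : ℤ) (q : ℕ), 1 ≤ q ∧ (q : ℝ) ≤ Q ∧ |ξ - (p : ℝ) / q| ≤ c * ψ q / q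

/-- Lang's inequality with the exponent `1 + ε` and the constant `c` fails for some denominator at
most `Q` -/
def LangFails (c ε Q ξ : ℝ) : Prop :=
  ∃ (p : ℤ) (q : ℕ), 2 ≤ q ∧ (q : ℝ) ≤ Q ∧
    |ξ - (p : ℝ) / q| ≤ c / ((q : ℝ) ^ 2 * Real.log q ^ (1 + ε))

/-- The coefficients of `P` outside of the block `s ≤ i < s + k` are prescribed by `b`, those of the block are of
absolute value at most `H`. -/
def Member (d : ℕ) (b : ℕ → ℤ) (s k H : ℕ) (P : ℤ[X]) : Prop :=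
  P.natDegree = d ∧ (∀ i ≤ d, i < s ∨ s + k ≤ i → P.coeff i = b i) ∧
    ∀ i, s ≤ i → i < s + k → |P.coeff i| ≤ (H : ℤ)

/-- `ξ` is a root of a polynomial of the family which is irreducible over `ℚ`. -/
def RootOf (d : ℕ) (b : ℕ → ℤ) (s k H : ℕ) (ξ : ℝ) : Prop :=
  ∃ P : ℤ[X], Member d b s k H P ∧ Irreducible (P.map (Int.castRingHom ℚ)) ∧ aeval ξ P = 0

/-- `ξ` is an algebraic unit of degree `d` and height at most `H`: it is a root of a monic integer polynomial of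
degree `d` with the constant term `1` or `-1` which is irreducible over `ℚ` and has coefficients of absolute value
at most `H`. -/
def AlgUnit (d H : ℕ) (ξ : ℝ) : Prop :=
  ∃ P : ℤ[X], P.Monic ∧ P.natDegree = d ∧ (P.coeff 0 = 1 ∨ P.coeff 0 = -1) ∧
    (∀ i, |P.coeff i| ≤ (H : ℤ)) ∧ Irreducible (P.map (Int.castRingHom ℚ)) ∧ aeval ξ P = 0

theorem LangFails.khintchine {c ε Q ξ : ℝ} (h : LangFails c ε Q ξ) :
    KhintchineFails c (lang ε) Q ξ := by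
  obtain ⟨p, q, hq2, hqQ, hle⟩ := h
  rw [lang_div ε c q hq2, ← mul_div_assoc] at hle
  exact ⟨p, q, by omega, hqQ, hle⟩

/-- the prescribed part -/
def bv (d : ℕ) (b : ℕ → ℤ) (s k : ℕ) : Fin (d + 1) → ℤ := fun i =>
  if s ≤ (i : ℕ) ∧ (i : ℕ) < s + k then 0 else b i

theorem aeval_split (d s k : ℕ) (hs : s + k ≤ d + 1) (P : ℤ[X]) (hP : P.natDegree = d) (x : ℝ) :
    aeval x P = ev (bv d (fun i => P.coeff i) s k) x +
      x ^ s * ev (fun j : Fin k => P.coeff (s + j)) x := by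
  rw [aeval_eq_sum_range, hP]
  have h1 : ev (bv d (fun i => P.coeff i) s k) x =
      ∑ i ∈ Finset.range (d + 1), (if s ≤ i ∧ i < s + k then 0 else (P.coeff i : ℝ) * x ^ i) := by
    unfold ev bv
    rw [← Fin.sum_univ_eq_sum_range
      (fun i => if s ≤ i ∧ i < s + k then (0 : ℝ) else (P.coeff i : ℝ) * x ^ i) (d + 1)]
    apply Finset.sum_congr rfl
    intro i _
    split_ifs
    · simp
    · rfl
  have h2 : x ^ s * ev (fun j : Fin k => P.coeff (s + j)) x =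
      ∑ i ∈ Finset.range (d + 1), (if s ≤ i ∧ i < s + k then (P.coeff i : ℝ) * x ^ i else 0) := by
    unfold ev
    rw [← Finset.sum_filter, Fin.sum_univ_eq_sum_range (fun j => ((P.coeff (s + j) : ℤ) : ℝ) * x ^ j) k,
      Finset.mul_sum]
    have h3 : (Finset.range (d + 1)).filter (fun i => s ≤ i ∧ i < s + k) = Finset.Ico s (s + k) := by
      ext i
      simp only [Finset.mem_filter, Finset.mem_range, Finset.mem_Ico]
      omega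
    rw [h3, Finset.sum_Ico_eq_sum_range, Nat.add_sub_cancel_left]
    apply Finset.sum_congr rfl
    intro j _
    rw [pow_add]
    ring
  rw [h1, h2, ← Finset.sum_add_distrib]
  apply Finset.sum_congr rfl
  intro i _
  split_ifs
  · simp
  · simp

theorem bv_eq (d s k H : ℕ) (b : ℕ → ℤ) (P : ℤ[X]) (hP : Member d b s k H P) :
    bv d (fun i => P.coeff i) s k = bv d b s k := by
  funext i
  unfold bv
  split_ifs with h
  · rfl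
  · exact hP.2.1 i (Nat.lt_succ_iff.1 i.2) (by omega)

/-- a polynomial of the family is determined by its free coefficients -/
theorem member_ext (d s k H : ℕ) (b : ℕ → ℤ) (P Q : ℤ[X]) (hP : Member d b s k H P)
    (hQ : Member d b s k H Q) (h : (fun j : Fin k => P.coeff (s + j)) = fun j : Fin k => Q.coeff (s + j)) :
    P = Q := by
  ext i
  rcases Nat.lt_or_ge d i with hi | hi
  · rw [coeff_eq_zero_of_natDegree_lt (by rw [hP.1]; exact hi),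
      coeff_eq_zero_of_natDegree_lt (by rw [hQ.1]; exact hi)]
  · by_cases hb : i < s ∨ s + k ≤ i
    · rw [hP.2.1 i hi hb, hQ.2.1 i hi hb]
    · have h1 := congrFun h ⟨i - s, by omega⟩
      simp only at h1
      have h2 : s + (i - s) = i := by omega
      rwa [h2] at h1

open Classical in
/-- from polynomials to their roots -/
theorem roots_pre (d s k H : ℕ) (hs : s + k ≤ d + 1) (b : ℕ → ℤ) (Φ : ℝ → Prop) (B : ℝ)
    (hB : ∀ BB : Finset (Fin k → ℤ), (∀ a ∈ BB, (∀ i, |a i| ≤ (H : ℤ)) ∧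
      ∃ ξ : ℝ, ev (bv d b s k) ξ + ξ ^ s * ev a ξ = 0 ∧ Φ ξ) → (BB.card : ℝ) ≤ B) :
    {ξ : ℝ | RootOf d b s k H ξ ∧ Φ ξ}.Finite ∧
      ({ξ : ℝ | RootOf d b s k H ξ ∧ Φ ξ}.ncard : ℝ) ≤ B * d := by
  obtain ⟨cond, hcond⟩ : ∃ cond : (Fin k → ℤ) → ℤ[X] → Prop, cond = fun a P =>
      Member d b s k H P ∧ Irreducible (P.map (Int.castRingHom ℚ)) ∧
      (fun j : Fin k => P.coeff (s + j)) = a ∧ ∃ ξ : ℝ, aeval ξ P = 0 ∧ Φ ξ := ⟨_, rfl⟩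
  obtain ⟨BB, hBB⟩ : ∃ BB : Finset (Fin k → ℤ), BB = (box k (H : ℤ)).filter (fun a => ∃ P, cond a P) :=
    ⟨_, rfl⟩
  have hcount := hB BB (by
    intro a ha
    rw [hBB, Finset.mem_filter] at ha
    obtain ⟨_, P, hP⟩ := ha
    rw [hcond] at hP
    obtain ⟨h1, h2, h3, ξ, h4, h5⟩ := hP
    subst h3
    refine ⟨fun i => h1.2.2 (s + i) (by omega) (by omega), ξ, ?_, h5⟩
    rw [← bv_eq d s k H b P h1, ← aeval_split d s k hs P h1.1]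
    exact h4)
  obtain ⟨Qf, hQf⟩ : ∃ Qf : (Fin k → ℤ) → ℤ[X], Qf = fun a =>
      if h : ∃ P, cond a P then h.choose else 0 := ⟨_, rfl⟩
  have hQ : ∀ a, (∃ P, cond a P) → cond a (Qf a) := by
    intro a ha
    rw [hQf]
    simp only
    rw [dif_pos ha]
    exact ha.choose_spec
  obtain ⟨U, hU⟩ : ∃ U : Finset ℝ, U = BB.biUnion (fun a =>
    ((Qf a).map (Int.castRingHom ℝ)).roots.toFinset) := ⟨_, rfl⟩
  have hSU : {ξ : ℝ | RootOf d b s k H ξ ∧ Φ ξ} ⊆ (U : Set ℝ) := by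
    rintro ξ ⟨⟨P, hP1, hP2, hP3⟩, hΦ⟩
    have hc : cond (fun j : Fin k => P.coeff (s + j)) P := by
      rw [hcond]
      exact ⟨hP1, hP2, rfl, ξ, hP3, hΦ⟩
    have hc2 := hQ _ ⟨P, hc⟩
    have hPQ : P = Qf (fun j : Fin k => P.coeff (s + j)) := by
      rw [hcond] at hc2
      exact member_ext d s k H b _ _ hP1 hc2.1 hc2.2.2.1.symm
    rw [hU, Finset.mem_coe, Finset.mem_biUnion]
    refine ⟨fun j : Fin k => P.coeff (s + j), ?_, ?_⟩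
    · rw [hBB, Finset.mem_filter]
      exact ⟨mem_box fun i => hP1.2.2 (s + i) (by omega) (by omega), P, hc⟩
    · rw [← hPQ, Multiset.mem_toFinset, mem_roots', IsRoot, eval_map]
      refine ⟨?_, hP3⟩
      rw [Polynomial.map_ne_zero_iff (RingHom.injective_int (Int.castRingHom ℝ))]
      intro h0
      rw [h0, Polynomial.map_zero] at hP2
      exact hP2.ne_zero rfl
  have hUcard : U.card ≤ BB.card * d := by
    rw [hU]
    refine Finset.card_biUnion_le_card_mul _ _ _ fun a ha => ?_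
    rw [hBB, Finset.mem_filter] at ha
    have h1 := hQ a ha.2
    rw [hcond] at h1
    refine (Multiset.toFinset_card_le _).trans ((Polynomial.card_roots' _).trans ?_)
    exact Polynomial.natDegree_map_le.trans h1.1.1.le
  refine ⟨U.finite_toSet.subset hSU, ?_⟩
  have h1 : {ξ : ℝ | RootOf d b s k H ξ ∧ Φ ξ}.ncard ≤ U.card := by
    rw [← Set.ncard_coe_finset]
    exact Set.ncard_le_ncard hSU U.finite_toSet
  have h2 : ({ξ : ℝ | RootOf d b s k H ξ ∧ Φ ξ}.ncard : ℝ) ≤ (BB.card : ℝ) * d := by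
    exact_mod_cast h1.trans hUcard
  exact h2.trans (mul_le_mul_of_nonneg_right hcount (by positivity))

/-- the count of the polynomials -/
theorem polys (k : ℕ) (hk : 2 ≤ k) (s d A : ℕ) (ρ T : ℝ) (hρ : 0 < ρ) (κ : ℝ) (hκ : κ < (k : ℝ) / 2)
    (ψ : ℕ → ℝ) (hψ0 : ∀ q, 0 ≤ ψ q) (hψa : Antitone ψ) (hψs : Summable ψ) (η : ℝ) (hη : 0 < η) :
    ∃ c : ℝ, 0 < c ∧ ∀ᶠ H : ℕ in atTop, ∀ b : ℕ → ℤ, (∀ i ≤ d, |b i| ≤ ((A * H : ℕ) : ℤ)) →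
      ∀ BB : Finset (Fin k → ℤ), (∀ a ∈ BB, (∀ i, |a i| ≤ (H : ℤ)) ∧
        ∃ ξ : ℝ, ev (bv d b s k) ξ + ξ ^ s * ev a ξ = 0 ∧ |ξ| ≤ T ∧ (s = 0 ∨ ρ ≤ |ξ|) ∧
          KhintchineFails c ψ ((H : ℝ) ^ κ) ξ) →
      (BB.card : ℝ) ≤ η * (H : ℝ) ^ k := by
  obtain ⟨n, rfl⟩ : ∃ n, k = n + 1 := ⟨k - 1, by omega⟩
  obtain ⟨T', hT'⟩ : ∃ T' : ℕ, T' = ⌈T⌉₊ + ⌈1 / ρ⌉₊ + n + 1 := ⟨_, rfl⟩
  obtain ⟨c, hc, h⟩ := Pool.Agent.V8H9.LD.approx_aff n T' s d A (by omega) (by omega) (by omega) κ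
    (by push_cast at hκ; exact hκ) ψ hψ0 hψa hψs η hη
  refine ⟨c, hc, ?_⟩
  filter_upwards [h] with H hH
  intro b hb BB hBB
  apply hH (bv d b s (n + 1)) _ BB
  · intro a ha
    obtain ⟨h1, ξ, h2, h3, h4, p, q, h5, h6, h7⟩ := hBB a ha
    refine ⟨h1, ξ, ?_, ?_, h2, p, q, h5, h6, ?_⟩
    · refine (h3.trans (Nat.le_ceil T)).trans ?_
      have : ⌈T⌉₊ ≤ T' := by omega
      exact_mod_cast this
    · rcases h4 with h4 | h4
      · exact Or.inl h4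
      · right
        refine le_trans ?_ h4
        have h8 : 1 / ρ ≤ (T' : ℝ) := by
          refine (Nat.le_ceil _).trans ?_
          have : ⌈1 / ρ⌉₊ ≤ T' := by omega
          exact_mod_cast this
        rw [div_le_iff₀ (lt_of_lt_of_le (by positivity) h8)]
        rw [div_le_iff₀ hρ] at h8
        linarith
    · rw [← mul_div_assoc]
      exact h7
  · intro i
    unfold bv
    split_ifs
    · rw [abs_zero]
      positivity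
    · exact hb i (Nat.lt_succ_iff.1 i.2)

/-- the main theorem, for nonnegative exponents -/
theorem main0 (d : ℕ) (hd : 2 ≤ d) (k : ℕ) (hk : 2 ≤ k) (s : ℕ) (hs : s + k ≤ d + 1) (A : ℕ)
    (ρ T : ℝ) (hρ : 0 < ρ) (κ : ℝ) (hκ0 : 0 ≤ κ) (hκ : κ < (k : ℝ) / 2)
    (ψ : ℕ → ℝ) (hψ0 : ∀ q, 0 ≤ ψ q) (hψa : Antitone ψ) (hψs : Summable ψ) (η : ℝ) (hη : 0 < η) :
    ∃ c : ℝ, 0 < c ∧ ∀ H : ℕ, 1 ≤ H → ∀ b : ℕ → ℤ, (∀ i ≤ d, |b i| ≤ ((A * H : ℕ) : ℤ)) →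
      {ξ : ℝ | RootOf d b s k H ξ ∧ |ξ| ≤ T ∧ (s = 0 ∨ ρ ≤ |ξ|) ∧
        KhintchineFails c ψ ((H : ℝ) ^ κ) ξ}.Finite ∧
      ({ξ : ℝ | RootOf d b s k H ξ ∧ |ξ| ≤ T ∧ (s = 0 ∨ ρ ≤ |ξ|) ∧
        KhintchineFails c ψ ((H : ℝ) ^ κ) ξ}.ncard : ℝ) ≤ η * (H : ℝ) ^ k := by
  have hd0 : (0 : ℝ) < d := by
    have : 0 < d := by omega
    exact_mod_cast this
  obtain ⟨c1, hc1, hev⟩ := polys k hk s d A ρ T hρ κ hκ ψ hψ0 hψa hψs (η / d) (by positivity)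
  obtain ⟨H0, hH0⟩ := eventually_atTop.mp hev
  obtain ⟨c2, hc2, hfew⟩ := Pool.Agent.V8H9.LC.few_heights d hd κ ψ hψ0 hψa ((A + 1) * H0 + 1)
  refine ⟨min c1 c2, lt_min hc1 hc2, fun H hH1 b hb => ?_⟩
  have hHp : 0 ≤ (H : ℝ) ^ k := by positivity
  have hpos : ∀ q : ℕ, 0 ≤ ψ q / q := fun q => div_nonneg (hψ0 q) (Nat.cast_nonneg q)
  rcases lt_or_ge H H0 with hHH | hHH
  · have hempty : {ξ : ℝ | RootOf d b s k H ξ ∧ |ξ| ≤ T ∧ (s = 0 ∨ ρ ≤ |ξ|) ∧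
        KhintchineFails (min c1 c2) ψ ((H : ℝ) ^ κ) ξ} = ∅ := by
      rw [Set.eq_empty_iff_forall_notMem]
      rintro ξ ⟨⟨P, hP1, hP2, hP3⟩, _, _, p, q, hq1, hqκ, hle⟩
      have hH' : (A + 1) * H < (A + 1) * H0 + 1 := by
        have : (A + 1) * H ≤ (A + 1) * H0 := Nat.mul_le_mul_left _ hHH.le
        omega
      have h1 := hfew ((A + 1) * H) hH' ξ ⟨P, hP1.1, ?_, hP2, hP3⟩ p q hq1 (by
        refine hqκ.trans (Real.rpow_le_rpow (Nat.cast_nonneg _) ?_ hκ0)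
        have : H ≤ (A + 1) * H := Nat.le_mul_of_pos_left _ (by omega)
        exact_mod_cast this)
      · have h2 : min c1 c2 * ψ q / q ≤ c2 * (ψ q / q) := by
          rw [mul_div_assoc]
          exact mul_le_mul_of_nonneg_right (min_le_right _ _) (hpos q)
        linarith
      · intro i
        have hAH : (((A + 1) * H : ℕ) : ℤ) = ((A * H : ℕ) : ℤ) + (H : ℤ) := by
          push_cast
          ring
        have hA0 : (0 : ℤ) ≤ ((A * H : ℕ) : ℤ) := Int.natCast_nonneg _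
        have hH0' : (0 : ℤ) ≤ (H : ℤ) := Int.natCast_nonneg _
        rw [hAH]
        rcases Nat.lt_or_ge d i with hi | hi
        · rw [coeff_eq_zero_of_natDegree_lt (by rw [hP1.1]; exact hi), abs_zero]
          omega
        · by_cases hbl : i < s ∨ s + k ≤ i
          · rw [hP1.2.1 i hi hbl]
            have := hb i hi
            omega
          · have := hP1.2.2 i (by omega) (by omega)
            omega
    rw [hempty]
    refine ⟨Set.finite_empty, ?_⟩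
    rw [Set.ncard_empty, Nat.cast_zero]
    positivity
  · have h1 := roots_pre d s k H hs b (fun ξ => |ξ| ≤ T ∧ (s = 0 ∨ ρ ≤ |ξ|) ∧
        KhintchineFails (min c1 c2) ψ ((H : ℝ) ^ κ) ξ) (η / d * (H : ℝ) ^ k) (by
      intro BB hBB
      apply hH0 H hHH b hb BB
      intro a ha
      obtain ⟨h2, ξ, h4, h5, h6, p, q, h7, h8, h9⟩ := hBB a ha
      refine ⟨h2, ξ, h4, h5, h6, p, q, h7, h8, h9.trans ?_⟩
      rw [mul_div_assoc, mul_div_assoc]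
      exact mul_le_mul_of_nonneg_right (min_le_left _ _) (hpos q))
    refine ⟨h1.1, h1.2.trans (le_of_eq ?_)⟩
    field_simp

theorem main1 (d : ℕ) (hd : 2 ≤ d) (k : ℕ) (hk : 2 ≤ k) (s : ℕ) (hs : s + k ≤ d + 1) (A : ℕ)
    (ρ T : ℝ) (hρ : 0 < ρ) (κ : ℝ) (hκ : κ < (k : ℝ) / 2)
    (ψ : ℕ → ℝ) (hψ0 : ∀ q, 0 ≤ ψ q) (hψa : Antitone ψ) (hψs : Summable ψ) (η : ℝ) (hη : 0 < η) :
    ∃ c : ℝ, 0 < c ∧ ∀ H : ℕ, 1 ≤ H → ∀ b : ℕ → ℤ, (∀ i ≤ d, |b i| ≤ ((A * H : ℕ) : ℤ)) →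
      {ξ : ℝ | RootOf d b s k H ξ ∧ |ξ| ≤ T ∧ (s = 0 ∨ ρ ≤ |ξ|) ∧
        KhintchineFails c ψ ((H : ℝ) ^ κ) ξ}.Finite ∧
      ({ξ : ℝ | RootOf d b s k H ξ ∧ |ξ| ≤ T ∧ (s = 0 ∨ ρ ≤ |ξ|) ∧
        KhintchineFails c ψ ((H : ℝ) ^ κ) ξ}.ncard : ℝ) ≤ η * (H : ℝ) ^ k := by
  have hk0 : (0 : ℝ) < (k : ℝ) / 2 := by
    have : 0 < k := by omega
    have : (0 : ℝ) < k := by exact_mod_cast this
    linarith
  obtain ⟨c, hc, h⟩ := main0 d hd k hk s hs A ρ T hρ (max κ 0) (le_max_right _ _)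
    (max_lt hκ hk0) ψ hψ0 hψa hψs η hη
  refine ⟨c, hc, fun H hH b hb => ?_⟩
  obtain ⟨h1, h2⟩ := h H hH b hb
  have hH1 : (1 : ℝ) ≤ H := by exact_mod_cast hH
  have hsub : {ξ : ℝ | RootOf d b s k H ξ ∧ |ξ| ≤ T ∧ (s = 0 ∨ ρ ≤ |ξ|) ∧
        KhintchineFails c ψ ((H : ℝ) ^ κ) ξ} ⊆
      {ξ : ℝ | RootOf d b s k H ξ ∧ |ξ| ≤ T ∧ (s = 0 ∨ ρ ≤ |ξ|) ∧
        KhintchineFails c ψ ((H : ℝ) ^ (max κ 0)) ξ} := by
    rintro ξ ⟨g1, g2, g3, p, q, g4, g5, g6⟩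
    exact ⟨g1, g2, g3, p, q, g4,
      g5.trans (Real.rpow_le_rpow_of_exponent_le hH1 (le_max_left _ _)), g6⟩
  exact ⟨h1.subset hsub, le_trans (Nat.cast_le.mpr (Set.ncard_le_ncard hsub h1)) h2⟩

/-- the prescribed coefficients of a unit -/
def ub (d : ℕ) (e : ℤ) (i : ℕ) : ℤ := if i = d then 1 else if i = 0 then e else 0

theorem ub_le (d : ℕ) (e : ℤ) (he : |e| ≤ 1) (H : ℕ) (hH : 1 ≤ H) (i : ℕ) :
    |ub d e i| ≤ ((1 * H : ℕ) : ℤ) := by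
  have h1 : |ub d e i| ≤ 1 := by
    unfold ub
    split_ifs
    · simp
    · exact he
    · simp
  refine h1.trans ?_
  have : (1 : ℤ) ≤ (H : ℤ) := by exact_mod_cast hH
  simpa using this

theorem AlgUnit.rootOf {d H : ℕ} (hd : 3 ≤ d) {ξ : ℝ} (h : AlgUnit d H ξ) :
    RootOf d (ub d 1) 1 (d - 1) H ξ ∨ RootOf d (ub d (-1)) 1 (d - 1) H ξ := by
  obtain ⟨P, h1, h2, h3, h4, h5, h6⟩ := h
  have hlead : P.coeff d = 1 := by
    unfold Monic leadingCoeff at h1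
    rwa [h2] at h1
  have key : ∀ e : ℤ, P.coeff 0 = e → RootOf d (ub d e) 1 (d - 1) H ξ := by
    intro e he
    refine ⟨P, ⟨h2, ?_, fun i _ _ => h4 i⟩, h5, h6⟩
    intro i hi hi2
    rcases hi2 with hi2 | hi2
    · have h7 : i = 0 := by omega
      have h8 : ¬ (0 : ℕ) = d := by omega
      rw [h7, he]
      unfold ub
      rw [if_neg h8, if_pos rfl]
    · have h7 : i = d := by omega
      rw [h7, hlead]
      unfold ub
      rw [if_pos rfl]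
  rcases h3 with h3 | h3
  · exact Or.inl (key 1 h3)
  · exact Or.inr (key (-1) h3)

/-- almost all algebraic units -/
theorem units (d : ℕ) (hd : 3 ≤ d) (κ : ℝ) (hκ : κ < ((d : ℝ) - 1) / 2) (ρ T : ℝ) (hρ : 0 < ρ)
    (ψ : ℕ → ℝ) (hψ0 : ∀ q, 0 ≤ ψ q) (hψa : Antitone ψ) (hψs : Summable ψ) (η : ℝ) (hη : 0 < η) :
    ∃ c : ℝ, 0 < c ∧ ∀ H : ℕ, 1 ≤ H →
      {ξ : ℝ | AlgUnit d H ξ ∧ ρ ≤ |ξ| ∧ |ξ| ≤ T ∧ KhintchineFails c ψ ((H : ℝ) ^ κ) ξ}.Finite ∧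
      ({ξ : ℝ | AlgUnit d H ξ ∧ ρ ≤ |ξ| ∧ |ξ| ≤ T ∧
        KhintchineFails c ψ ((H : ℝ) ^ κ) ξ}.ncard : ℝ) ≤ η * (H : ℝ) ^ (d - 1) := by
  have hk : κ < ((d - 1 : ℕ) : ℝ) / 2 := by
    rw [Nat.cast_sub (by omega)]
    push_cast
    exact hκ
  obtain ⟨c, hc, h⟩ := main1 d (by omega) (d - 1) (by omega) 1 (by omega) 1 ρ T hρ κ hk ψ hψ0 hψa hψs
    (η / 2) (by positivity)
  refine ⟨c, hc, fun H hH => ?_⟩
  obtain ⟨a1, a2⟩ := h H hH (ub d 1) (fun i _ => ub_le d 1 (by simp) H hH i)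
  obtain ⟨b1, b2⟩ := h H hH (ub d (-1)) (fun i _ => ub_le d (-1) (by simp) H hH i)
  have hsub : {ξ : ℝ | AlgUnit d H ξ ∧ ρ ≤ |ξ| ∧ |ξ| ≤ T ∧ KhintchineFails c ψ ((H : ℝ) ^ κ) ξ} ⊆
      {ξ : ℝ | RootOf d (ub d 1) 1 (d - 1) H ξ ∧ |ξ| ≤ T ∧ (1 = 0 ∨ ρ ≤ |ξ|) ∧
        KhintchineFails c ψ ((H : ℝ) ^ κ) ξ} ∪
      {ξ : ℝ | RootOf d (ub d (-1)) 1 (d - 1) H ξ ∧ |ξ| ≤ T ∧ (1 = 0 ∨ ρ ≤ |ξ|) ∧
        KhintchineFails c ψ ((H : ℝ) ^ κ) ξ} := by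
    rintro ξ ⟨g1, g2, g3, g4⟩
    rcases g1.rootOf hd with g | g
    · exact Or.inl ⟨g, g3, Or.inr g2, g4⟩
    · exact Or.inr ⟨g, g3, Or.inr g2, g4⟩
  refine ⟨(a1.union b1).subset hsub, ?_⟩
  have h3 := (Set.ncard_le_ncard hsub (a1.union b1)).trans (Set.ncard_union_le _ _)
  have h4 : ({ξ : ℝ | AlgUnit d H ξ ∧ ρ ≤ |ξ| ∧ |ξ| ≤ T ∧
      KhintchineFails c ψ ((H : ℝ) ^ κ) ξ}.ncard : ℝ) ≤
      ({ξ : ℝ | RootOf d (ub d 1) 1 (d - 1) H ξ ∧ |ξ| ≤ T ∧ (1 = 0 ∨ ρ ≤ |ξ|) ∧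
        KhintchineFails c ψ ((H : ℝ) ^ κ) ξ}.ncard : ℝ) +
      ({ξ : ℝ | RootOf d (ub d (-1)) 1 (d - 1) H ξ ∧ |ξ| ≤ T ∧ (1 = 0 ∨ ρ ≤ |ξ|) ∧
        KhintchineFails c ψ ((H : ℝ) ^ κ) ξ}.ncard : ℝ) := by exact_mod_cast h3
  exact h4.trans ((add_le_add a2 b2).trans (le_of_eq (by ring)))

/-- **Lang's inequality for almost all algebraic numbers with prescribed coefficients.**

(1) Polynomials. Let `k ≥ 2`, `κ < k / 2`, let `s`, `d`, `A` be natural numbers and `ρ > 0`, `T` real, let `ψ` be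
nonnegative, nonincreasing and summable and `η > 0`. There is `c > 0` such that for all large `H` and ALL integers
`b_0, ..., b_d` with `|b_i| ≤ A H`, for all but at most `η H ^ k` of the integer vectors `a` with
`|a_j| ≤ H` all real zeros `ξ` of the function `∑ b_i x ^ i + ∑ a_j x ^ (s + j)` (`i ≤ d` outside of the block
`s ≤ i < s + k`, `j < k`) with `|ξ| ≤ T`, and `|ξ| ≥ ρ` if `s > 0`, satisfy `|ξ - p/q| > c ψ(q) / q` for all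
integers `p` and all `1 ≤ q ≤ H ^ κ`.

(2) Algebraic numbers. The same for the roots of the polynomials of degree `d ≥ 2` in this family which are
irreducible over `ℚ`, for every `H ≥ 1`.

(3) The same as (2) with Lang's inequality `|ξ - p/q| > c / (q² (log q)^(1+ε))`, `2 ≤ q ≤ H ^ κ`.

(4) Algebraic units. Let `d ≥ 3`, `κ < (d - 1) / 2`, `ρ > 0`, `T` real, `ε, η > 0`. There is `c > 0` such that for
every `H ≥ 1` all but at most `η H ^ (d - 1)` of the real algebraic units of degree `d` and height at most `H` with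
`ρ ≤ |ξ| ≤ T` satisfy Lang's inequality for all `p` and `2 ≤ q ≤ H ^ κ`.

(5) For `d ≥ 3` and `H ≥ 63` there are at least `(H / 126) ^ (d - 1)` algebraic units of degree `d` and height at
most `H` in `[1/2, 1]`, and finitely many in all. -/
theorem result :
    (∀ (k : ℕ), 2 ≤ k → ∀ (s d A : ℕ) (ρ T κ : ℝ), 0 < ρ → κ < (k : ℝ) / 2 →
      ∀ ψ : ℕ → ℝ, (∀ q, 0 ≤ ψ q) → Antitone ψ → Summable ψ → ∀ η : ℝ, 0 < η →
      ∃ c : ℝ, 0 < c ∧ ∀ᶠ H : ℕ in atTop, ∀ b : ℕ → ℤ, (∀ i ≤ d, |b i| ≤ ((A * H : ℕ) : ℤ)) →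
        {a : Fin k → ℤ | (∀ j, |a j| ≤ (H : ℤ)) ∧ ∃ ξ : ℝ,
          (∑ i ∈ (Finset.range (d + 1)).filter (fun i => i < s ∨ s + k ≤ i), (b i : ℝ) * ξ ^ i) +
            ∑ j : Fin k, (a j : ℝ) * ξ ^ (s + (j : ℕ)) = 0 ∧
          |ξ| ≤ T ∧ (s = 0 ∨ ρ ≤ |ξ|) ∧ KhintchineFails c ψ ((H : ℝ) ^ κ) ξ}.Finite ∧
        ({a : Fin k → ℤ | (∀ j, |a j| ≤ (H : ℤ)) ∧ ∃ ξ : ℝ,
          (∑ i ∈ (Finset.range (d + 1)).filter (fun i => i < s ∨ s + k ≤ i), (b i : ℝ) * ξ ^ i) +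
            ∑ j : Fin k, (a j : ℝ) * ξ ^ (s + (j : ℕ)) = 0 ∧
          |ξ| ≤ T ∧ (s = 0 ∨ ρ ≤ |ξ|) ∧ KhintchineFails c ψ ((H : ℝ) ^ κ) ξ}.ncard : ℝ) ≤
          η * (H : ℝ) ^ k) ∧
    (∀ (d : ℕ), 2 ≤ d → ∀ (k : ℕ), 2 ≤ k → ∀ (s : ℕ), s + k ≤ d + 1 → ∀ (A : ℕ) (ρ T κ : ℝ), 0 < ρ →
      κ < (k : ℝ) / 2 → ∀ ψ : ℕ → ℝ, (∀ q, 0 ≤ ψ q) → Antitone ψ → Summable ψ → ∀ η : ℝ, 0 < η →
      ∃ c : ℝ, 0 < c ∧ ∀ H : ℕ, 1 ≤ H → ∀ b : ℕ → ℤ, (∀ i ≤ d, |b i| ≤ ((A * H : ℕ) : ℤ)) →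
        {ξ : ℝ | RootOf d b s k H ξ ∧ |ξ| ≤ T ∧ (s = 0 ∨ ρ ≤ |ξ|) ∧
          KhintchineFails c ψ ((H : ℝ) ^ κ) ξ}.Finite ∧
        ({ξ : ℝ | RootOf d b s k H ξ ∧ |ξ| ≤ T ∧ (s = 0 ∨ ρ ≤ |ξ|) ∧
          KhintchineFails c ψ ((H : ℝ) ^ κ) ξ}.ncard : ℝ) ≤ η * (H : ℝ) ^ k) ∧
    (∀ (d : ℕ), 2 ≤ d → ∀ (k : ℕ), 2 ≤ k → ∀ (s : ℕ), s + k ≤ d + 1 → ∀ (A : ℕ) (ρ T κ : ℝ), 0 < ρ →
      κ < (k : ℝ) / 2 → ∀ ε η : ℝ, 0 < ε → 0 < η →
      ∃ c : ℝ, 0 < c ∧ ∀ H : ℕ, 1 ≤ H → ∀ b : ℕ → ℤ, (∀ i ≤ d, |b i| ≤ ((A * H : ℕ) : ℤ)) →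
        {ξ : ℝ | RootOf d b s k H ξ ∧ |ξ| ≤ T ∧ (s = 0 ∨ ρ ≤ |ξ|) ∧
          LangFails c ε ((H : ℝ) ^ κ) ξ}.Finite ∧
        ({ξ : ℝ | RootOf d b s k H ξ ∧ |ξ| ≤ T ∧ (s = 0 ∨ ρ ≤ |ξ|) ∧
          LangFails c ε ((H : ℝ) ^ κ) ξ}.ncard : ℝ) ≤ η * (H : ℝ) ^ k) ∧
    (∀ (d : ℕ), 3 ≤ d → ∀ (κ ρ T : ℝ), κ < ((d : ℝ) - 1) / 2 → 0 < ρ → ∀ ε η : ℝ, 0 < ε → 0 < η →
      ∃ c : ℝ, 0 < c ∧ ∀ H : ℕ, 1 ≤ H →
        ({ξ : ℝ | AlgUnit d H ξ ∧ ρ ≤ |ξ| ∧ |ξ| ≤ T ∧ LangFails c ε ((H : ℝ) ^ κ) ξ}.ncard : ℝ) ≤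
          η * (H : ℝ) ^ (d - 1)) ∧
    (∀ (d : ℕ), 3 ≤ d → ∀ H : ℕ, {ξ : ℝ | AlgUnit d H ξ}.Finite ∧ (63 ≤ H →
      ((H : ℝ) / 126) ^ (d - 1) ≤ ({ξ : ℝ | AlgUnit d H ξ ∧ 1 / 2 ≤ ξ ∧ ξ ≤ 1}.ncard : ℝ))) := by
  classical
  refine ⟨?_, ?_, ?_, ?_, ?_⟩
  · intro k hk s d A ρ T κ hρ hκ ψ hψ0 hψa hψs η hη
    obtain ⟨c, hc, h⟩ := polys k hk s d A ρ T hρ κ hκ ψ hψ0 hψa hψs η hη
    refine ⟨c, hc, ?_⟩
    filter_upwards [h] with H hH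
    intro b hb
    have hfin : {a : Fin k → ℤ | (∀ j, |a j| ≤ (H : ℤ)) ∧ ∃ ξ : ℝ,
          (∑ i ∈ (Finset.range (d + 1)).filter (fun i => i < s ∨ s + k ≤ i), (b i : ℝ) * ξ ^ i) +
            ∑ j : Fin k, (a j : ℝ) * ξ ^ (s + (j : ℕ)) = 0 ∧
          |ξ| ≤ T ∧ (s = 0 ∨ ρ ≤ |ξ|) ∧ KhintchineFails c ψ ((H : ℝ) ^ κ) ξ}.Finite := by
      apply (box k (H : ℤ)).finite_toSet.subset
      intro a ha
      exact Finset.mem_coe.2 (mem_box ha.1)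
    refine ⟨hfin, ?_⟩
    rw [Set.ncard_eq_toFinset_card _ hfin]
    apply hH b hb
    intro a ha
    rw [Set.Finite.mem_toFinset] at ha
    obtain ⟨h1, ξ, h2, h3⟩ := ha
    refine ⟨h1, ξ, ?_, h3⟩
    rw [← h2]
    congr 1
    · unfold ev bv
      rw [Finset.sum_filter, ← Fin.sum_univ_eq_sum_range
        (fun i => if i < s ∨ s + k ≤ i then (b i : ℝ) * ξ ^ i else 0) (d + 1)]
      apply Finset.sum_congr rfl
      intro i _
      by_cases hi : s ≤ (i : ℕ) ∧ (i : ℕ) < s + k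
      · rw [if_pos hi, if_neg (by omega)]
        simp
      · rw [if_neg hi, if_pos (by omega)]
    · unfold ev
      rw [Finset.mul_sum]
      apply Finset.sum_congr rfl
      intro j _
      rw [pow_add]
      ring
  · intro d hd k hk s hs A ρ T κ hρ hκ ψ hψ0 hψa hψs η hη
    exact main1 d hd k hk s hs A ρ T hρ κ hκ ψ hψ0 hψa hψs η hη
  · intro d hd k hk s hs A ρ T κ hρ hκ ε η hε hη
    obtain ⟨c, hc, h⟩ := main1 d hd k hk s hs A ρ T hρ κ hκ (lang ε) (lang_nonneg ε) (lang_anti ε hε)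
      (lang_summable ε hε) η hη
    refine ⟨c, hc, fun H hH b hb => ?_⟩
    obtain ⟨h1, h2⟩ := h H hH b hb
    have hsub : {ξ : ℝ | RootOf d b s k H ξ ∧ |ξ| ≤ T ∧ (s = 0 ∨ ρ ≤ |ξ|) ∧
          LangFails c ε ((H : ℝ) ^ κ) ξ} ⊆ {ξ : ℝ | RootOf d b s k H ξ ∧ |ξ| ≤ T ∧
            (s = 0 ∨ ρ ≤ |ξ|) ∧ KhintchineFails c (lang ε) ((H : ℝ) ^ κ) ξ} := by
      rintro ξ ⟨g1, g2, g3, g4⟩
      exact ⟨g1, g2, g3, g4.khintchine⟩
    exact ⟨h1.subset hsub, le_trans (Nat.cast_le.mpr (Set.ncard_le_ncard hsub h1)) h2⟩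
  · intro d hd κ ρ T hκ hρ ε η hε hη
    obtain ⟨c, hc, h⟩ := units d hd κ hκ ρ T hρ (lang ε) (lang_nonneg ε) (lang_anti ε hε)
      (lang_summable ε hε) η hη
    refine ⟨c, hc, fun H hH => ?_⟩
    obtain ⟨h1, h2⟩ := h H hH
    refine le_trans (Nat.cast_le.mpr (Set.ncard_le_ncard ?_ h1)) h2
    rintro ξ ⟨g1, g2, g3, g4⟩
    exact ⟨g1, g2, g3, g4.khintchine⟩
  · intro d hd H
    have hfin : {ξ : ℝ | AlgUnit d H ξ}.Finite := by
      have key : ∀ b : ℕ → ℤ, {ξ : ℝ | RootOf d b 1 (d - 1) H ξ ∧ True}.Finite := by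
        intro b
        refine (roots_pre d 1 (d - 1) H (by omega) b (fun _ => True)
          ((box (d - 1) (H : ℤ)).card : ℝ) ?_).1
        intro BB hBB
        apply Nat.cast_le.2
        apply Finset.card_le_card
        intro a ha
        exact mem_box (hBB a ha).1
      refine ((key (ub d 1)).union (key (ub d (-1)))).subset ?_
      intro ξ hξ
      rcases AlgUnit.rootOf hd hξ with g | g
      · exact Or.inl ⟨g, trivial⟩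
      · exact Or.inr ⟨g, trivial⟩
    refine ⟨hfin, fun hH => ?_⟩
    obtain ⟨n, rfl⟩ : ∃ n, d = n + 3 := ⟨d - 3, by omega⟩
    have e : n + 3 - 1 = n + 2 := by omega
    rw [e]
    apply Pool.Agent.V8H34.PC2.many n H hH
    · exact hfin.subset fun ξ hξ => hξ.1
    · intro P x h1 h2 h3 h4 h5 h6 h7 h8
      exact ⟨⟨P, h1, h2, Or.inr h3, h4, h5, h6⟩, h7, h8⟩

end Pool.Agent.Results.MP_c307ca_nt.PrescribedCoefficients
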